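import Pool.Agent.Q98.SPN.Stm

/-!
# Project SPN (helper98), job COV: the cover of the set of tuples with bounded moments
-/

set_option autoImplicit false

open scoped Matrix.Norms.L2Operator Matrix
open Finset

namespace Pool.Agent.Q150.SPN

open Pool.Agent.Q98.SPN
open Pool.Agent.H172R2.GS (sg XX arrays)

theorem zz_pos (κ k : ℕ) : 0 < zz κ k := by
  unfold zz
  positivity

theorem zz_le (κ k : ℕ) : zz κ k ≤ 1 / 2 := by
  unfold zz
  refine one_div_le_one_div_of_le (by norm_num) ?_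
  have h1 : (1 : ℝ) ≤ 2 ^ k := one_le_pow₀ (by norm_num)
  have h2 : (1 : ℝ) ≤ Real.exp κ := Real.one_le_exp (Nat.cast_nonneg κ)
  have h3 : (1 : ℝ) ≤ 2 ^ k * Real.exp κ := by nlinarith
  nlinarith

theorem exists_K (X t : ℝ) (ht : 0 < t) (hX : 0 ≤ X) (κ : ℕ) (hκ : 1 ≤ κ) :
    ∃ K : ℕ, X < (4 ^ K * t) ^ κ := by
  obtain ⟨K, hK⟩ := pow_unbounded_of_one_lt ((X + 1) / t) (show (1 : ℝ) < 4 by norm_num)
  rw [div_lt_iff₀ ht] at hK
  refine ⟨K, ?_⟩
  calc X < 4 ^ K * t := by linarith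
    _ = (4 ^ K * t) ^ 1 := (pow_one _).symm
    _ ≤ (4 ^ K * t) ^ κ := pow_le_pow_right₀ (by linarith) hκ

theorem COV_ok (h1 : S_COVL) (h2 : S_LEV) (h3 : S_LOGC) (h4 : S_NUM) : S_COV := by
  classical
  intro ι _ _ d m κ N hd hN hm hκ hNm
  have hm' : (0 : ℝ) < m := by exact_mod_cast hm
  have hκ' : (0 : ℝ) < κ := by
    have : 0 < κ := by omega
    exact_mod_cast this
  have hs : 0 < sc m κ := by
    unfold sc
    positivity
  have hN0 : 0 ≤ N := le_trans (Nat.cast_nonneg _) hN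
  obtain ⟨K, hK⟩ := exists_K (2 * N * (2 * Real.exp 1 * κ * m) ^ κ) (sc m κ ^ 2) (by positivity)
    (by positivity) κ (by omega)
  choose F hFc hF using fun k : ℕ => h2 ι d (qq m κ k) k (zz κ k) (sc m κ) (zz_pos κ k)
    (zz_le κ k) hs
  -- the number of blocks
  have hι : (Fintype.card ι : ℝ) ≤ m * Real.exp κ := by
    refine le_trans ?_ (hN.trans hNm)
    have h5 : Fintype.card ι ≤ ∑ i, d i ^ 2 := by
      calc Fintype.card ι = ∑ _i : ι, 1 := by simp
        _ ≤ ∑ i, d i ^ 2 := Finset.sum_le_sum fun i _ => Nat.one_le_pow _ _ (hd i)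
    exact_mod_cast h5
  have hcard : ∀ k, ((F k).card : ℝ) ≤
      Real.exp ((m : ℝ) / (200 * 2 ^ k) + (m : ℝ) / 16 ^ k *
        (2 * (22.1 + 13.6 * k + κ) / 100 ^ κ)) := fun k =>
    h3 m κ k (Fintype.card ι) ((F k).card) (Nat.cast_nonneg _) hι (Nat.cast_nonneg _) (hFc k)
  refine ⟨(Fintype.piFinset (fun k : Fin K => F k)).image
    (fun Z => fun i => ∑ k : Fin K, Z k i), ?_, ?_⟩
  · calc (((Fintype.piFinset (fun k : Fin K => F k)).image
          (fun Z => fun i => ∑ k : Fin K, Z k i)).card : ℝ)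
        ≤ ((Fintype.piFinset (fun k : Fin K => F k)).card : ℝ) := by
          exact_mod_cast Finset.card_image_le
      _ = ∏ k : Fin K, ((F k).card : ℝ) := by
          rw [Fintype.card_piFinset]
          push_cast
          rfl
      _ ≤ ∏ k : Fin K, Real.exp ((m : ℝ) / (200 * 2 ^ (k : ℕ)) + (m : ℝ) / 16 ^ (k : ℕ) *
            (2 * (22.1 + 13.6 * (k : ℕ) + κ) / 100 ^ κ)) :=
          Finset.prod_le_prod (fun _ _ => Nat.cast_nonneg _) fun k _ => hcard k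
      _ = Real.exp (∑ k ∈ range K, ((m : ℝ) / (200 * 2 ^ k) + (m : ℝ) / 16 ^ k *
            (2 * (22.1 + 13.6 * k + κ) / 100 ^ κ))) := by
          rw [← Real.exp_sum, Finset.sum_range]
      _ ≤ Real.exp ((m : ℝ) / 50) := Real.exp_le_exp.mpr (h4 m κ K hκ)
  · intro Y hY
    obtain ⟨r, W, V, hYW, hWV, hr⟩ := h1 ι d m κ K N hd hm hκ hNm hK Y hY
    have hZ : ∀ k : Fin K, ∃ Z ∈ F k, ∀ i, ‖W k i * (V k i)ᴴ - Z i‖ ≤ sc m κ / 2 ^ (k : ℕ) := by
      intro k
      have h5 := hr k (Finset.mem_range.mpr k.2)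
      refine hF k (r k) (W k) (V k) (le_trans ?_ h5) h5 (fun i => (hWV k i).1)
        fun i => (hWV k i).2
      exact Finset.sum_le_sum fun i _ => Nat.le_mul_of_pos_left _ (hd i)
    choose Z hZF hZ using hZ
    refine ⟨fun i => ∑ k : Fin K, Z k i, Finset.mem_image.mpr ⟨Z, Fintype.mem_piFinset.mpr hZF,
      rfl⟩, fun i => ?_⟩
    have h6 : Y i - ∑ k : Fin K, Z k i = (Y i - ∑ k ∈ range K, W k i * (V k i)ᴴ) +
        ∑ k : Fin K, (W k i * (V k i)ᴴ - Z k i) := by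
      rw [Finset.sum_sub_distrib, Finset.sum_range]
      abel
    have h7 : ‖∑ k : Fin K, (W k i * (V k i)ᴴ - Z k i)‖ ≤ 2 * sc m κ := by
      calc ‖∑ k : Fin K, (W k i * (V k i)ᴴ - Z k i)‖
          ≤ ∑ k : Fin K, ‖W k i * (V k i)ᴴ - Z k i‖ := norm_sum_le _ _
        _ ≤ ∑ k : Fin K, sc m κ / 2 ^ (k : ℕ) := Finset.sum_le_sum fun k _ => hZ k i
        _ = (∑ k ∈ range K, (1 / 2 : ℝ) ^ k) * sc m κ := by
            rw [Finset.sum_range, Finset.sum_mul]
            refine Finset.sum_congr rfl fun k _ => ?_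
            rw [one_div, inv_pow]
            ring
        _ ≤ 2 * sc m κ := mul_le_mul_of_nonneg_right (sum_geometric_two_le K) hs.le
    show ‖Y i - ∑ k : Fin K, Z k i‖ ≤ 3 * sc m κ
    rw [h6]
    refine (norm_add_le _ _).trans ?_
    linarith [hYW i]

end Pool.Agent.Q150.SPN
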