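import Pool.Agent.Q98.SPN.Stm

/-!
# Project SPN (helper98), job MAINP: the full colouring
-/

set_option autoImplicit false

open scoped Matrix.Norms.L2Operator Matrix
open Finset

namespace Pool.Agent.Q150.SPN

open Pool.Agent.Q98.SPN
open Pool.Agent.H172R2.GS (sg XX arrays)

theorem sc_le (m κ : ℕ) (N : ℝ) (h : (κ : ℝ) * m ≤ 2 * gf N m) (hg : 0 ≤ gf N m) :
    3 * sc m κ ≤ 170 * Real.sqrt (gf N m) := by
  have h1 : sc m κ ≤ Real.sqrt (gf N m * 56 ^ 2) := by
    unfold sc
    refine Real.sqrt_le_sqrt ?_
    have he : Real.exp 2 ≤ 7.4 := by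
      have h2 : Real.exp 2 = Real.exp 1 ^ 2 := by
        rw [← Real.exp_nat_mul]
        norm_num
      rw [h2]
      have h3 := Real.exp_one_lt_d9
      have h4 := Real.exp_pos 1
      nlinarith
    have h5 : 0 ≤ (κ : ℝ) * m := by positivity
    calc 200 * Real.exp 2 * κ * m = 200 * Real.exp 2 * (κ * m) := by ring
      _ ≤ 200 * 7.4 * (κ * m) := by gcongr
      _ ≤ 200 * 7.4 * (2 * gf N m) := by gcongr
      _ ≤ gf N m * 56 ^ 2 := by linarith
  rw [Real.sqrt_mul hg, Real.sqrt_sq (by norm_num)] at h1
  linarith [Real.sqrt_nonneg (gf N m)]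

theorem MAINP_ok (h1 : S_PC) (h2 : S_GF) : S_MAINP := by
  classical
  intro ι _ _ d N hN hd hdN
  obtain ⟨ga, gb, gc, gd⟩ := h2 N hN
  suffices H : ∀ (m : ℕ) (J : Type) [Fintype J] [DecidableEq J], Fintype.card J = m →
      ∀ (A : J → (i : ι) → Matrix (Fin (d i)) (Fin (d i)) ℂ), (∀ g i, ‖A g i‖ ≤ 1) →
      ∃ ε : J → ℝ, (∀ g, ε g = 1 ∨ ε g = -1) ∧
        ∀ i, ‖∑ g, ((ε g : ℝ) : ℂ) • A g i‖ ≤ 10 ^ 5 * Real.sqrt (gf N (Fintype.card J)) by
    intro J _ _ A hA
    exact H _ J rfl A hA
  intro m
  induction m using Nat.strong_induction_on with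
  | _ m ih =>
  intro J _ _ hJ A hA
  rcases Nat.eq_zero_or_pos m with h0 | hpos
  · -- no elements
    have hE : IsEmpty J := Fintype.card_eq_zero_iff.mp (hJ.trans h0)
    refine ⟨fun _ => 1, fun _ => Or.inl rfl, fun i => ?_⟩
    rw [Finset.univ_eq_empty, Finset.sum_empty, norm_zero]
    positivity
  have hm1 : (1 : ℝ) ≤ (Fintype.card J : ℝ) := by
    rw [hJ]
    exact_mod_cast hpos
  have hgm : (Fintype.card J : ℝ) ≤ gf N (Fintype.card J) := gc _ (by linarith)
  have hg0 : 0 ≤ gf N (Fintype.card J) := by linarith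
  rcases Nat.lt_or_ge m 4 with h4 | h4
  · -- few elements
    refine ⟨fun _ => 1, fun _ => Or.inl rfl, fun i => ?_⟩
    have h5 : ‖∑ g, (((1 : ℝ) : ℝ) : ℂ) • A g i‖ ≤ 3 := by
      calc ‖∑ g, (((1 : ℝ) : ℝ) : ℂ) • A g i‖ ≤ ∑ g : J, ‖(((1 : ℝ) : ℝ) : ℂ) • A g i‖ :=
            norm_sum_le _ _
        _ ≤ ∑ _g : J, (1 : ℝ) := Finset.sum_le_sum fun g _ => by
            rw [Complex.ofReal_one, one_smul]
            exact hA g i
        _ = (Fintype.card J : ℝ) := by simp
        _ ≤ 3 := by
            rw [hJ]
            have : m ≤ 3 := by omega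
            exact_mod_cast this
    have h6 : 1 ≤ Real.sqrt (gf N (Fintype.card J)) := by
      rw [Real.one_le_sqrt]
      linarith
    refine h5.trans ?_
    linarith
  · -- partial colouring
    obtain ⟨κ, hκ, hNκ, hκm⟩ := gd (Fintype.card J) (by linarith)
    obtain ⟨x, hx, hxc, hxn⟩ := h1 ι d κ N hd hdN hκ J A (by omega) hNκ hA
    have hsub : Fintype.card {g : J // x g = 0} + (univ.filter fun g => x g ≠ 0).card =
        Fintype.card J := by
      rw [Fintype.card_subtype]
      have := Finset.card_filter_add_card_filter_not (s := (univ : Finset J)) (fun g => x g = 0)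
      rw [Finset.card_univ] at this
      exact this
    have hsubR : (Fintype.card {g : J // x g = 0} : ℝ) +
        ((univ.filter fun g => x g ≠ 0).card : ℝ) = Fintype.card J := by
      exact_mod_cast hsub
    have hlt : Fintype.card {g : J // x g = 0} < m := by
      rw [← hJ]
      have : (Fintype.card {g : J // x g = 0} : ℝ) < Fintype.card J := by linarith
      exact_mod_cast this
    obtain ⟨ε', hε', hn'⟩ := ih _ hlt {g : J // x g = 0} rfl (fun g => A g.1) fun g i => hA g.1 i
    set e : J → ℝ := fun g => if h : x g = 0 then ε' ⟨g, h⟩ else 0 with he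
    refine ⟨fun g => x g + e g, fun g => ?_, fun i => ?_⟩
    · show x g + e g = 1 ∨ x g + e g = -1
      by_cases h : x g = 0
      · have h7 : e g = ε' ⟨g, h⟩ := by
          rw [he]
          exact dif_pos h
        rw [h, zero_add, h7]
        exact hε' _
      · have h7 : e g = 0 := by
          rw [he]
          exact dif_neg h
        rw [h7, add_zero]
        rcases hx g with h8 | h8
        · exact absurd h8 h
        · exact h8
    · have hsum : ∑ g, ((e g : ℝ) : ℂ) • A g i =
          ∑ g : {g : J // x g = 0}, ((ε' g : ℝ) : ℂ) • A g.1 i := by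
        rw [← Finset.sum_filter_of_ne (p := fun g => x g = 0)
          (f := fun g => ((e g : ℝ) : ℂ) • A g i) (s := univ)]
        · rw [Finset.sum_subtype (univ.filter fun g => x g = 0) (p := fun g => x g = 0)
            (fun g => by simp)]
          refine Finset.sum_congr rfl fun g _ => ?_
          have h7 : e g.1 = ε' g := by
            rw [he]
            exact dif_pos g.2
          rw [h7]
        · intro g _ hne
          by_contra h
          apply hne
          have h7 : e g = 0 := by
            rw [he]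
            exact dif_neg h
          rw [h7, Complex.ofReal_zero, zero_smul]
      have hsplit : ∑ g, (((x g + e g : ℝ)) : ℂ) • A g i =
          ∑ g, ((x g : ℝ) : ℂ) • A g i + ∑ g, ((e g : ℝ) : ℂ) • A g i := by
        rw [← Finset.sum_add_distrib]
        refine Finset.sum_congr rfl fun g _ => ?_
        rw [Complex.ofReal_add, add_smul]
      show ‖∑ g, (((x g + e g : ℝ)) : ℂ) • A g i‖ ≤ _
      rw [hsplit, hsum]
      refine (norm_add_le _ _).trans ?_
      have h9 : 3 * sc (Fintype.card J) κ ≤ 170 * Real.sqrt (gf N (Fintype.card J)) :=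
        sc_le _ κ N hκm hg0
      have h10 : ‖∑ g : {g : J // x g = 0}, ((ε' g : ℝ) : ℂ) • A g.1 i‖ ≤
          99750 * Real.sqrt (gf N (Fintype.card J)) := by
        rcases Nat.eq_zero_or_pos (Fintype.card {g : J // x g = 0}) with hz | hz
        · have hE : IsEmpty {g : J // x g = 0} := Fintype.card_eq_zero_iff.mp hz
          rw [Finset.univ_eq_empty, Finset.sum_empty, norm_zero]
          positivity
        · have hzR : (0 : ℝ) < Fintype.card {g : J // x g = 0} := by exact_mod_cast hz
          have h11 : gf N (Fintype.card {g : J // x g = 0}) ≤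
              0.9975 ^ 2 * gf N (Fintype.card J) := by
            refine (ga _ (9 / 10 * (Fintype.card J : ℝ)) hzR ?_).trans
              (gb (Fintype.card J) (by linarith))
            linarith
          have h12 : Real.sqrt (gf N (Fintype.card {g : J // x g = 0})) ≤
              0.9975 * Real.sqrt (gf N (Fintype.card J)) := by
            refine (Real.sqrt_le_sqrt h11).trans (le_of_eq ?_)
            rw [Real.sqrt_mul (by positivity), Real.sqrt_sq (by norm_num)]
          have h13 := hn' i
          linarith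
      have h14 := hxn i
      have h15 := Real.sqrt_nonneg (gf N (Fintype.card J))
      linarith

end Pool.Agent.Q150.SPN
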